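import Mathlib
import Pool.Agent.H964.QC.Stm2

/-! # Project QC: the walk on a long cycle (TORA) -/

set_option autoImplicit false

open Finset

namespace Pool.Agent.H81.QC

open Pool.Agent.H964.QC

/-- the walk on the integers -/
noncomputable def pz : ℕ → ℤ → ℝ
  | 0, j => if j = 0 then 1 else 0
  | (n + 1), j => (pz n (j - 1) + pz n (j + 1)) / 2

theorem pz_nonneg (n : ℕ) : ∀ j, 0 ≤ pz n j := by
  induction n with
  | zero => intro j; unfold pz; split_ifs <;> norm_num
  | succ n ih =>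
    intro j
    have h1 := ih (j - 1)
    have h2 := ih (j + 1)
    simp only [pz]
    linarith

theorem q1_nonneg (M n : ℕ) : ∀ k, 0 ≤ q1 M n k := by
  induction n with
  | zero => intro j; unfold q1; split_ifs <;> norm_num
  | succ n ih =>
    intro j
    have h1 := ih (j - 1)
    have h2 := ih (j + 1)
    simp only [q1]
    linarith

theorem q1_neg (M n : ℕ) : ∀ k, q1 M n (-k) = q1 M n k := by
  induction n with
  | zero => intro j; simp [q1]
  | succ n ih =>
    intro j
    have h1 := ih (j - 1)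
    have h2 := ih (j + 1)
    simp only [q1]
    have e1 : -j - 1 = -(j + 1) := by ring
    have e2 : -j + 1 = -(j - 1) := by ring
    rw [e1, e2, h1, h2]
    ring

theorem sum_shift {M : ℕ} [NeZero M] (f : ZMod M → ℝ) (c : ZMod M) :
    ∑ y, f (y + c) = ∑ y, f y :=
  Equiv.sum_comp (Equiv.addRight c) f

theorem q1_conv (M : ℕ) [NeZero M] (m : ℕ) : ∀ n z,
    q1 M (m + n) z = ∑ y, q1 M m y * q1 M n (z - y) := by
  induction m with
  | zero =>
    intro n z
    simp [q1]
  | succ m ih =>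
    intro n z
    have e : m + 1 + n = (m + n) + 1 := by ring
    rw [e]
    simp only [q1]
    rw [ih n (z - 1), ih n (z + 1)]
    have h1 : ∑ y, q1 M m (y - 1) * q1 M n (z - y) = ∑ y, q1 M m y * q1 M n (z - 1 - y) := by
      rw [← sum_shift (fun y => q1 M m (y - 1) * q1 M n (z - y)) 1]
      refine Finset.sum_congr rfl fun y _ => ?_
      have a1 : y + 1 - 1 = y := by ring
      have a2 : z - (y + 1) = z - 1 - y := by ring
      rw [a1, a2]
    have h2 : ∑ y, q1 M m (y + 1) * q1 M n (z - y) = ∑ y, q1 M m y * q1 M n (z + 1 - y) := by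
      rw [← sum_shift (fun y => q1 M m (y + 1) * q1 M n (z - y)) (-1)]
      refine Finset.sum_congr rfl fun y _ => ?_
      have a1 : y + -1 + 1 = y := by ring
      have a2 : z - (y + -1) = z + 1 - y := by ring
      rw [a1, a2]
    rw [← h1, ← h2, ← Finset.sum_add_distrib, Finset.sum_div]
    refine Finset.sum_congr rfl fun y _ => ?_
    ring

theorem q1_sum (M : ℕ) [NeZero M] (n : ℕ) : ∑ y, q1 M n y = 1 := by
  induction n with
  | zero => simp [q1]
  | succ n ih =>
    simp only [q1]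
    rw [← Finset.sum_div, Finset.sum_add_distrib]
    have h1 : ∑ y, q1 M n (y - 1) = 1 := by
      have := sum_shift (fun y => q1 M n y) (-1 : ZMod M)
      simp only [← sub_eq_add_neg] at this
      rw [this, ih]
    have h2 : ∑ y, q1 M n (y + 1) = 1 := by
      rw [sum_shift (fun y => q1 M n y) (1 : ZMod M), ih]
    rw [h1, h2]
    norm_num

theorem q1_eq_pz (M n : ℕ) : ∀ j : ℤ, |j| + n < M → q1 M n (j : ZMod M) = pz n j := by
  induction n with
  | zero =>
    intro j hj
    have key : ((j : ZMod M) = 0) ↔ j = 0 := by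
      rw [ZMod.intCast_zmod_eq_zero_iff_dvd]
      constructor
      · intro h
        exact Int.eq_zero_of_abs_lt_dvd h (by simpa using hj)
      · rintro rfl; simp
    simp only [q1, pz, key]
  | succ n ih =>
    intro j hj
    have h1 := ih (j - 1) (by
      have := abs_sub_abs_le_abs_sub j 1
      have h3 : |j - 1| ≤ |j| + 1 := by
        have := abs_sub j 1
        simpa using this
      push_cast at hj
      linarith)
    have h2 := ih (j + 1) (by
      have h3 : |j + 1| ≤ |j| + 1 := by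
        have := abs_add_le j 1
        simpa using this
      push_cast at hj
      linarith)
    simp only [q1, pz]
    rw [← h1, ← h2]
    push_cast
    rfl

theorem pz_zero (n : ℕ) : ∀ j : ℤ, (n : ℤ) < |j| → pz n j = 0 := by
  induction n with
  | zero =>
    intro j hj
    have : j ≠ 0 := by
      rintro rfl; simp at hj
    simp [pz, this]
  | succ n ih =>
    intro j hj
    push_cast at hj
    have h1 := ih (j - 1) (by
      have := abs_sub_abs_le_abs_sub j 1
      simp only [abs_one] at this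
      linarith)
    have h2 := ih (j + 1) (by
      have := abs_sub_abs_le_abs_sub j (-1)
      simp only [abs_neg, abs_one, sub_neg_eq_add] at this
      linarith)
    simp only [pz]
    rw [h1, h2]
    norm_num

theorem pz_odd (n : ℕ) : ∀ j : ℤ, ¬ Even (j + n) → pz n j = 0 := by
  induction n with
  | zero =>
    intro j hj
    have : j ≠ 0 := by
      rintro rfl; simp at hj
    simp [pz, this]
  | succ n ih =>
    intro j hj
    push_cast at hj
    have h1 := ih (j - 1) (by
      intro h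
      apply hj
      have : j + (n + 1) = (j - 1 + n) + 2 := by ring
      rw [this]
      exact h.add (by decide))
    have h2 := ih (j + 1) (by
      intro h
      apply hj
      have : j + ((n : ℤ) + 1) = (j + 1 + n) := by ring
      rw [this]
      exact h)
    simp only [pz]
    rw [h1, h2]
    norm_num

theorem pz_choose (n : ℕ) : ∀ i : ℕ, pz n (2 * i - n) = (n.choose i : ℝ) / 2 ^ n := by
  induction n with
  | zero =>
    intro i
    cases i with
    | zero => simp [pz]
    | succ i =>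
      have : (2 * ((i : ℤ) + 1)) ≠ 0 := by positivity
      simp [pz]
      omega
  | succ n ih =>
    intro i
    simp only [pz]
    cases i with
    | zero =>
      have h1 : pz n (2 * ((0 : ℕ) : ℤ) - ((n + 1 : ℕ) : ℤ) - 1) = 0 := by
        apply pz_zero
        push_cast
        rw [lt_abs]; right; linarith
      have h2 := ih 0
      have e2 : 2 * ((0 : ℕ) : ℤ) - ((n + 1 : ℕ) : ℤ) + 1 = 2 * ((0 : ℕ) : ℤ) - n := by
        push_cast; ring
      rw [h1, e2, h2]
      simp [pow_succ]
      ring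
    | succ i =>
      have h1 := ih i
      have h2 := ih (i + 1)
      have e1 : 2 * ((i + 1 : ℕ) : ℤ) - ((n + 1 : ℕ) : ℤ) - 1 = 2 * (i : ℤ) - n := by
        push_cast; ring
      have e2 : 2 * ((i + 1 : ℕ) : ℤ) - ((n + 1 : ℕ) : ℤ) + 1 = 2 * ((i + 1 : ℕ) : ℤ) - n := by
        push_cast; ring
      rw [e1, e2, h1, h2, Nat.choose_succ_succ]
      push_cast
      rw [pow_succ]
      ring

theorem cb_bound (n : ℕ) :
    ((Nat.centralBinom n : ℝ)) ^ 2 * (2 * n + 1) ≤ (4 ^ n) ^ 2 := by
  induction n with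
  | zero => simp
  | succ n ih =>
    have h := Nat.succ_mul_centralBinom_succ n
    have h' : ((n : ℝ) + 1) * (Nat.centralBinom (n + 1) : ℝ) =
        2 * (2 * n + 1) * (Nat.centralBinom n : ℝ) := by exact_mod_cast h
    have hn : (0 : ℝ) < (n : ℝ) + 1 := by positivity
    set a := (Nat.centralBinom n : ℝ)
    set b := (Nat.centralBinom (n + 1) : ℝ)
    have h2 : ((n : ℝ) + 1) ^ 2 * (b ^ 2 * (2 * ((n : ℝ) + 1) + 1)) ≤
        ((n : ℝ) + 1) ^ 2 * (4 ^ (n + 1)) ^ 2 := by
      have e1 : ((n : ℝ) + 1) ^ 2 * (b ^ 2 * (2 * ((n : ℝ) + 1) + 1)) =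
          (((n : ℝ) + 1) * b) ^ 2 * (2 * n + 3) := by ring
      rw [e1, h']
      have e2 : (2 * (2 * (n : ℝ) + 1) * a) ^ 2 * (2 * n + 3) =
          (a ^ 2 * (2 * n + 1)) * (4 * ((2 * n + 1) * (2 * n + 3))) := by ring
      rw [e2]
      have e3 : (0 : ℝ) ≤ 4 * ((2 * n + 1) * (2 * n + 3)) := by positivity
      have e4 : 4 * ((2 * (n : ℝ) + 1) * (2 * n + 3)) ≤ 16 * ((n : ℝ) + 1) ^ 2 := by nlinarith
      calc (a ^ 2 * (2 * n + 1)) * (4 * ((2 * n + 1) * (2 * n + 3)))
          ≤ (4 ^ n) ^ 2 * (4 * ((2 * n + 1) * (2 * n + 3))) := by gcongr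
        _ ≤ (4 ^ n) ^ 2 * (16 * ((n : ℝ) + 1) ^ 2) := by gcongr
        _ = ((n : ℝ) + 1) ^ 2 * (4 ^ (n + 1)) ^ 2 := by rw [pow_succ]; ring
    have := le_of_mul_le_mul_left h2 (by positivity)
    push_cast
    linarith

theorem cb_sqrt (n : ℕ) : (Nat.centralBinom n : ℝ) / 4 ^ n ≤ 1 / Real.sqrt (2 * n + 1) := by
  have h := cb_bound n
  have h4 : (0 : ℝ) < 4 ^ n := by positivity
  have hs : 0 < Real.sqrt (2 * n + 1) := Real.sqrt_pos.2 (by positivity)
  rw [div_le_div_iff₀ h4 hs, one_mul]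
  have h1 : ((Nat.centralBinom n : ℝ) * Real.sqrt (2 * n + 1)) ^ 2 ≤ (4 ^ n) ^ 2 := by
    rw [mul_pow, Real.sq_sqrt (by positivity)]
    exact h
  exact le_of_sq_le_sq h1 h4.le |> fun h => h

theorem pz_even_le (m : ℕ) (j : ℤ) : pz (2 * m) j ≤ 1 / Real.sqrt (2 * m + 1) := by
  have hpos : (0 : ℝ) ≤ 1 / Real.sqrt (2 * m + 1) := by positivity
  by_cases h1 : Even (j + (2 * m : ℕ))
  · by_cases h2 : ((2 * m : ℕ) : ℤ) < |j|
    · rw [pz_zero _ _ h2]; exact hpos
    · push Not at h2
      obtain ⟨r, hr⟩ := h1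
      have hj := abs_le.1 h2
      have hr0 : 0 ≤ r := by push_cast at hr hj; omega
      obtain ⟨i, rfl⟩ := Int.eq_ofNat_of_zero_le hr0
      have hji : j = 2 * (i : ℤ) - ((2 * m : ℕ) : ℤ) := by linarith
      rw [hji, pz_choose]
      refine le_trans ?_ (cb_sqrt m)
      have e : (2 : ℝ) ^ (2 * m) = 4 ^ m := by rw [pow_mul]; norm_num
      rw [e]
      have := Nat.choose_le_centralBinom i m
      gcongr
  · rw [pz_odd _ _ h1]; exact hpos

theorem pz_le (n : ℕ) (hn : 1 ≤ n) (j : ℤ) : pz n j ≤ 1 / Real.sqrt n := by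
  rcases Nat.even_or_odd' n with ⟨m, rfl | rfl⟩
  · refine (pz_even_le m j).trans ?_
    have : (0 : ℝ) < Real.sqrt ((2 * m : ℕ) : ℝ) := Real.sqrt_pos.2 (by positivity)
    apply one_div_le_one_div_of_le this
    apply Real.sqrt_le_sqrt
    push_cast
    linarith
  · simp only [pz]
    have h1 := pz_even_le m (j - 1)
    have h2 := pz_even_le m (j + 1)
    have e : ((2 * m + 1 : ℕ) : ℝ) = 2 * m + 1 := by push_cast; ring
    rw [e]
    linarith

theorem choose_low (n : ℕ) (hn : 1 ≤ n) (i : ℕ) : i ≤ n →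
    ((2 * n).choose n : ℝ) * (1 - (i : ℝ) ^ 2 / n) ≤ ((2 * n).choose (n + i) : ℝ) := by
  have hn' : (0 : ℝ) < n := by exact_mod_cast hn
  induction i with
  | zero => intro _; simp
  | succ i ih =>
    intro hi
    have ih' := ih (by omega)
    have h1 := Nat.choose_succ_right_eq (2 * n) (n + i)
    have h2 : 2 * n - (n + i) = n - i := by omega
    rw [h2] at h1
    have h1' : ((2 * n).choose (n + i + 1) : ℝ) * ((n : ℝ) + i + 1) =
        ((2 * n).choose (n + i) : ℝ) * ((n : ℝ) - i) := by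
      have h3 : ((n - i : ℕ) : ℝ) = (n : ℝ) - i := by
        rw [Nat.cast_sub (by omega)]
      rw [← h3]
      exact_mod_cast h1
    have hmax : ((2 * n).choose (n + i) : ℝ) ≤ ((2 * n).choose n : ℝ) := by
      have := Nat.choose_le_centralBinom (n + i) n
      rw [Nat.centralBinom_eq_two_mul_choose] at this
      exact_mod_cast this
    have e : n + (i + 1) = n + i + 1 := by ring
    rw [e]
    set A := ((2 * n).choose (n + i) : ℝ)
    set B := ((2 * n).choose (n + i + 1) : ℝ)
    set A0 := ((2 * n).choose n : ℝ)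
    have hA : 0 ≤ A := by positivity
    have hA0 : 0 ≤ A0 := by positivity
    have hi0 : (0 : ℝ) ≤ i := Nat.cast_nonneg i
    have hd : (0 : ℝ) < (n : ℝ) + i + 1 := by positivity
    have hB : B = A - (2 * i + 1) * A / ((n : ℝ) + i + 1) := by
      field_simp
      linarith
    have h5 : (2 * (i : ℝ) + 1) * A / ((n : ℝ) + i + 1) ≤ (2 * i + 1) * A0 / n := by
      apply div_le_div₀ (by positivity) (by gcongr) hn' (by linarith)
    have h6 : A0 * (1 - ((i + 1 : ℕ) : ℝ) ^ 2 / n) =
        A0 * (1 - (i : ℝ) ^ 2 / n) - (2 * i + 1) * A0 / n := by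
      push_cast
      field_simp
      ring
    rw [h6, hB]
    linarith

theorem valMinAbs_sq (M : ℕ) [NeZero M] (x : ZMod M) (c : ℤ) :
    (((x + (c : ZMod M)).valMinAbs : ℝ)) ^ 2 ≤ ((x.valMinAbs : ℝ) + c) ^ 2 := by
  have h := ZMod.natAbs_min_of_le_div_two M ((x + (c : ZMod M)).valMinAbs) (x.valMinAbs + c)
    (by push_cast; rfl)
    (ZMod.natAbs_valMinAbs_le _)
  have h2 : ((x + (c : ZMod M)).valMinAbs) ^ 2 ≤ (x.valMinAbs + c) ^ 2 := by
    rw [← Int.natAbs_sq, ← Int.natAbs_sq (x.valMinAbs + c)]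
    have : (((x + (c : ZMod M)).valMinAbs.natAbs : ℤ)) ≤ ((x.valMinAbs + c).natAbs : ℤ) := by
      exact_mod_cast h
    gcongr
  exact_mod_cast h2

theorem q1_second (M : ℕ) [NeZero M] (n : ℕ) : ∀ x : ZMod M,
    ∑ y, q1 M n y * ((x + y).valMinAbs : ℝ) ^ 2 ≤ (x.valMinAbs : ℝ) ^ 2 + n := by
  induction n with
  | zero => intro x; simp [q1]
  | succ n ih =>
    intro x
    simp only [q1]
    have h1 : ∑ y, q1 M n (y - 1) * ((x + y).valMinAbs : ℝ) ^ 2 =
        ∑ y, q1 M n y * ((x + 1 + y).valMinAbs : ℝ) ^ 2 := by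
      rw [← sum_shift (M := M) (fun y : ZMod M => q1 M n (y - 1) * (((x + y).valMinAbs : ℤ) : ℝ) ^ 2) 1]
      refine Finset.sum_congr rfl fun y _ => ?_
      have a1 : y + 1 - 1 = y := by ring
      have a2 : x + (y + 1) = x + 1 + y := by ring
      rw [a1, a2]
    have h2 : ∑ y, q1 M n (y + 1) * ((x + y).valMinAbs : ℝ) ^ 2 =
        ∑ y, q1 M n y * ((x - 1 + y).valMinAbs : ℝ) ^ 2 := by
      rw [← sum_shift (M := M) (fun y : ZMod M => q1 M n (y + 1) * (((x + y).valMinAbs : ℤ) : ℝ) ^ 2) (-1)]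
      refine Finset.sum_congr rfl fun y _ => ?_
      have a1 : y + -1 + 1 = y := by ring
      have a2 : x + (y + -1) = x - 1 + y := by ring
      rw [a1, a2]
    have h3 : ∑ y, (q1 M n (y - 1) + q1 M n (y + 1)) / 2 * ((x + y).valMinAbs : ℝ) ^ 2 =
        (∑ y, q1 M n y * ((x + 1 + y).valMinAbs : ℝ) ^ 2 +
          ∑ y, q1 M n y * ((x - 1 + y).valMinAbs : ℝ) ^ 2) / 2 := by
      rw [← h1, ← h2, ← Finset.sum_add_distrib, Finset.sum_div]
      refine Finset.sum_congr rfl fun y _ => ?_
      ring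
    rw [h3]
    have i1 := ih (x + 1)
    have i2 := ih (x - 1)
    have v1 := valMinAbs_sq M x 1
    have v2 := valMinAbs_sq M x (-1)
    push_cast at v1 v2
    rw [← sub_eq_add_neg] at v2
    push_cast
    nlinarith

theorem t_TORA : S_TORA := by
  refine ⟨1, le_rfl, fun N0 M _ hM => ⟨q1_nonneg M, q1_neg M, fun m n z => q1_conv M m n z,
    q1_sum M, ?_, ?_, ?_, fun n x => q1_second M n x⟩⟩
  · intro n hn
    have h := q1_eq_pz M (2 * n) 0 (by push_cast; simp; omega)
    have h2 := pz_choose (2 * n) n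
    have e : 2 * (n : ℤ) - ((2 * n : ℕ) : ℤ) = 0 := by push_cast; ring
    rw [e] at h2
    push_cast at h
    rw [h, h2, rr, Nat.centralBinom_eq_two_mul_choose]
    congr 2
    rw [pow_mul]; norm_num
  · intro n k hn1 hn
    have hk := ZMod.natAbs_valMinAbs_le k
    have h := q1_eq_pz M n k.valMinAbs (by
      have : |k.valMinAbs| = (k.valMinAbs.natAbs : ℤ) := (Int.natCast_natAbs _).symm
      rw [this]
      omega)
    rw [ZMod.coe_valMinAbs] at h
    rw [h]
    exact pz_le n hn1 _
  · intro n i hn1 hn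
    have hn' : (0 : ℝ) < n := by exact_mod_cast hn1
    have h0 := q1_eq_pz M (2 * n) 0 (by push_cast; simp; omega)
    have h02 := pz_choose (2 * n) n
    have e : 2 * (n : ℤ) - ((2 * n : ℕ) : ℤ) = 0 := by push_cast; ring
    rw [e] at h02
    push_cast at h0
    have hq0 : 0 ≤ q1 M (2 * n) 0 := q1_nonneg _ _ _
    by_cases hi : (n : ℤ) < |i|
    · have h1 : (1 - (i : ℝ) ^ 2 / n) ≤ 0 := by
        have h2 : (n : ℝ) < |(i : ℝ)| := by exact_mod_cast hi
        have h3 : (n : ℝ) ≤ (i : ℝ) ^ 2 := by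
          have h4 : (1 : ℝ) ≤ n := by exact_mod_cast hn1
          have h5 : (i : ℝ) ^ 2 = |(i : ℝ)| ^ 2 := (sq_abs _).symm
          rw [h5]
          nlinarith
        have : 1 ≤ (i : ℝ) ^ 2 / n := by rw [le_div_iff₀ hn']; linarith
        linarith
      exact (mul_nonpos_of_nonneg_of_nonpos hq0 h1).trans (q1_nonneg _ _ _)
    · push Not at hi
      -- nonnegative `i`
      have key : ∀ i : ℕ, i ≤ n → q1 M (2 * n) 0 * (1 - (i : ℝ) ^ 2 / n) ≤
          q1 M (2 * n) ((2 * (i : ℤ) : ℤ) : ZMod M) := by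
        intro i hin
        have h1 := q1_eq_pz M (2 * n) (2 * (i : ℤ)) (by
          have : |2 * (i : ℤ)| = 2 * (i : ℤ) := abs_of_nonneg (by positivity)
          rw [this]; push_cast; omega)
        have h2 := pz_choose (2 * n) (n + i)
        have e2 : 2 * ((n + i : ℕ) : ℤ) - ((2 * n : ℕ) : ℤ) = 2 * (i : ℤ) := by push_cast; ring
        rw [e2] at h2
        rw [h1, h2, h0, h02]
        have h3 := choose_low n hn1 i hin
        have h4 : (0 : ℝ) < 2 ^ (2 * n) := by positivity
        rw [div_mul_eq_mul_div]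
        gcongr
      rcases le_total 0 i with h | h
      · obtain ⟨i', rfl⟩ := Int.eq_ofNat_of_zero_le h
        have := key i' (by
          rw [abs_of_nonneg h] at hi
          exact_mod_cast hi)
        simpa using this
      · obtain ⟨i', hi'⟩ := Int.eq_ofNat_of_zero_le (neg_nonneg.2 h)
        have hi2 : i = -(i' : ℤ) := by linarith
        subst hi2
        have := key i' (by
          rw [abs_neg, abs_of_nonneg (by positivity)] at hi
          exact_mod_cast hi)
        have e3 : ((2 * -(i' : ℤ) : ℤ) : ZMod M) = -((2 * (i' : ℤ) : ℤ) : ZMod M) := by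
          push_cast; ring
        rw [e3, q1_neg]
        have e4 : (((-(i' : ℤ) : ℤ)) : ℝ) ^ 2 = (i' : ℝ) ^ 2 := by push_cast; ring
        rw [e4]
        exact this

end Pool.Agent.H81.QC
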